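import Mathlib
import Pool.Agent.CStarLift.Final

/-!
# MP_ba91e3_al: functorial C*-algebra lifting of simplicial monoids

There is a functor `Ψ` from the category of simplicial monoids with all monoid homomorphisms to the
category of C*-algebras with `*`-homomorphisms such that `V ∘ Ψ` is naturally isomorphic to the
inclusion of the simplicial monoids into the commutative monoids; here `V(A)` is the monoid of
Murray-von Neumann classes of projections in matrices over `A`.
-/

set_option autoImplicit false

open CategoryTheory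

namespace Pool.Agent.Results.MP_ba91e3_al.FunctorialLifting

/-- A C*-algebra, not necessarily unital. -/
structure CStar : Type 1 where
  /-- the underlying set -/
  carrier : Type
  [str : NonUnitalCStarAlgebra carrier]

instance : CoeSort CStar Type := ⟨CStar.carrier⟩

attribute [instance] CStar.str

/-- A morphism is a `*`-homomorphism. -/
structure CStar.Hom (A B : CStar) : Type where
  /-- the `*`-homomorphism -/
  hom : A →⋆ₙₐ[ℂ] B

/-- The identity. -/
def CStar.one (A : CStar) : CStar.Hom A A := ⟨NonUnitalStarAlgHom.id ℂ A⟩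

/-- The composition: first `f`, then `g`. -/
def CStar.mul {A B C : CStar} (f : CStar.Hom A B) (g : CStar.Hom B C) : CStar.Hom A C :=
  ⟨g.hom.comp f.hom⟩

theorem CStar.one_mul' {A B : CStar} (f : CStar.Hom A B) : CStar.mul (CStar.one A) f = f := rfl

theorem CStar.mul_one' {A B : CStar} (f : CStar.Hom A B) : CStar.mul f (CStar.one B) = f := rfl

theorem CStar.mul_assoc' {A B C D : CStar} (f : CStar.Hom A B) (g : CStar.Hom B C)
    (h : CStar.Hom C D) : CStar.mul (CStar.mul f g) h = CStar.mul f (CStar.mul g h) := rfl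

/-- The category of C*-algebras and `*`-homomorphisms. -/
instance : Category.{0} CStar where
  Hom := CStar.Hom
  id := CStar.one
  comp := CStar.mul
  id_comp := CStar.one_mul'
  comp_id := CStar.mul_one'
  assoc := CStar.mul_assoc'

/-- A projection in some matrix algebra `M_n(A)`. -/
structure Projn (A : Type) [NonUnitalCStarAlgebra A] where
  /-- the number `n` of rows -/
  size : ℕ
  /-- the matrix -/
  mat : Matrix (Fin size) (Fin size) A
  idem : mat * mat = mat
  selfAdj : mat.conjTranspose = mat

/-- Murray-von Neumann equivalence: `p = v* v` and `q = v v*` for a rectangular matrix `v`. -/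
def MvN {A : Type} [NonUnitalCStarAlgebra A] (p q : Projn A) : Prop :=
  ∃ v : Matrix (Fin q.size) (Fin p.size) A, v.conjTranspose * v = p.mat ∧ v * v.conjTranspose = q.mat

set_option linter.unusedSectionVars false

section general

variable {A : Type} [NonUnitalCStarAlgebra A] {ι κ μ ν : Type} [Fintype ι] [Fintype κ] [Fintype μ]
  [Fintype ν]

/-- equivalence of matrices over arbitrary finite index sets -/
def Rel (p : Matrix ι ι A) (q : Matrix κ κ A) : Prop :=
  ∃ v : Matrix κ ι A, v.conjTranspose * v = p ∧ v * v.conjTranspose = q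

theorem Rel.refl {p : Matrix ι ι A} (h1 : p * p = p) (h2 : p.conjTranspose = p) : Rel p p :=
  ⟨p, by rw [h2, h1], by rw [h2, h1]⟩

theorem Rel.symm {p : Matrix ι ι A} {q : Matrix κ κ A} (h : Rel p q) : Rel q p := by
  obtain ⟨v, h1, h2⟩ := h
  exact ⟨v.conjTranspose, by rw [Matrix.conjTranspose_conjTranspose, h2],
    by rw [Matrix.conjTranspose_conjTranspose, h1]⟩

theorem Rel.trans {p : Matrix ι ι A} {q : Matrix κ κ A} {r : Matrix μ μ A} (hp : p * p = p)
    (hr : r * r = r) (h : Rel p q) (h' : Rel q r) : Rel p r := by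
  obtain ⟨v, h1, h2⟩ := h
  obtain ⟨w, h3, h4⟩ := h'
  refine ⟨w * v, ?_, ?_⟩
  · rw [Matrix.conjTranspose_mul]
    calc v.conjTranspose * w.conjTranspose * (w * v)
        = v.conjTranspose * (w.conjTranspose * w) * v := by simp only [Matrix.mul_assoc]
      _ = v.conjTranspose * (v * v.conjTranspose) * v := by rw [h3, h2]
      _ = (v.conjTranspose * v) * (v.conjTranspose * v) := by simp only [Matrix.mul_assoc]
      _ = p := by rw [h1, hp]
  · rw [Matrix.conjTranspose_mul]
    calc w * v * (v.conjTranspose * w.conjTranspose)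
        = w * (v * v.conjTranspose) * w.conjTranspose := by simp only [Matrix.mul_assoc]
      _ = w * (w.conjTranspose * w) * w.conjTranspose := by rw [h3, h2]
      _ = (w * w.conjTranspose) * (w * w.conjTranspose) := by simp only [Matrix.mul_assoc]
      _ = r := by rw [h4, hr]

theorem rel_reindex (e : ι ≃ κ) {p : Matrix ι ι A} (h1 : p * p = p)
    (h2 : p.conjTranspose = p) : Rel p (Matrix.reindex e e p) := by
  refine ⟨p.submatrix e.symm id, ?_, ?_⟩
  · rw [Matrix.conjTranspose_submatrix, h2, Matrix.submatrix_mul_equiv p p id e.symm id, h1,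
      Matrix.submatrix_id_id]
  · rw [Matrix.conjTranspose_submatrix, h2, Matrix.reindex_apply]
    have := Matrix.submatrix_mul_equiv p p e.symm (Equiv.refl ι) e.symm
    rw [Equiv.coe_refl, h1] at this
    exact this

theorem rel_blocks {p : Matrix ι ι A} {p' : Matrix κ κ A} {q : Matrix μ μ A} {q' : Matrix ν ν A}
    (h : Rel p p') (h' : Rel q q') :
    Rel (Matrix.fromBlocks p 0 0 q) (Matrix.fromBlocks p' 0 0 q') := by
  obtain ⟨v, h1, h2⟩ := h
  obtain ⟨w, h3, h4⟩ := h'
  refine ⟨Matrix.fromBlocks v 0 0 w, ?_, ?_⟩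
  · rw [Matrix.fromBlocks_conjTranspose, Matrix.fromBlocks_multiply]
    simp [h1, h3]
  · rw [Matrix.fromBlocks_conjTranspose, Matrix.fromBlocks_multiply]
    simp [h2, h4]

theorem blocks_idem {p : Matrix ι ι A} {q : Matrix κ κ A} (h1 : p * p = p) (h2 : q * q = q) :
    Matrix.fromBlocks p 0 0 q * Matrix.fromBlocks p 0 0 q = Matrix.fromBlocks p 0 0 q := by
  rw [Matrix.fromBlocks_multiply]
  simp [h1, h2]

theorem blocks_self {p : Matrix ι ι A} {q : Matrix κ κ A} (h1 : p.conjTranspose = p)
    (h2 : q.conjTranspose = q) :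
    (Matrix.fromBlocks p 0 0 q).conjTranspose = Matrix.fromBlocks p 0 0 q := by
  rw [Matrix.fromBlocks_conjTranspose]
  simp [h1, h2]

theorem reindex_idem (e : ι ≃ κ) {p : Matrix ι ι A} (h1 : p * p = p) :
    Matrix.reindex e e p * Matrix.reindex e e p = Matrix.reindex e e p := by
  rw [Matrix.reindex_apply, Matrix.submatrix_mul_equiv p p e.symm e.symm e.symm, h1]

theorem reindex_self (e : ι ≃ κ) {p : Matrix ι ι A} (h1 : p.conjTranspose = p) :
    (Matrix.reindex e e p).conjTranspose = Matrix.reindex e e p := by
  rw [Matrix.reindex_apply, Matrix.conjTranspose_submatrix, h1]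

end general

section monoid

variable {A : Type} [NonUnitalCStarAlgebra A]

theorem mvn_iff (p q : Projn A) : MvN p q ↔ Rel p.mat q.mat := Iff.rfl

/-- The block sum of two square matrices. -/
def blockSum {m n : ℕ} (x : Matrix (Fin m) (Fin m) A) (y : Matrix (Fin n) (Fin n) A) :
    Matrix (Fin (m + n)) (Fin (m + n)) A :=
  Matrix.reindex finSumFinEquiv finSumFinEquiv (Matrix.fromBlocks x 0 0 y)

theorem blockSum_idem (p q : Projn A) :
    blockSum p.mat q.mat * blockSum p.mat q.mat = blockSum p.mat q.mat :=
  reindex_idem _ (blocks_idem p.idem q.idem)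

theorem blockSum_self (p q : Projn A) :
    (blockSum p.mat q.mat).conjTranspose = blockSum p.mat q.mat :=
  reindex_self _ (blocks_self p.selfAdj q.selfAdj)

/-- The orthogonal sum `p ⊕ q`. -/
def Projn.sum (p q : Projn A) : Projn A where
  size := p.size + q.size
  mat := blockSum p.mat q.mat
  idem := blockSum_idem p q
  selfAdj := blockSum_self p q

/-- The projection of size `0`. -/
def Projn.zero (A : Type) [NonUnitalCStarAlgebra A] : Projn A where
  size := 0
  mat := 0
  idem := Subsingleton.elim _ _
  selfAdj := Subsingleton.elim _ _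

theorem mvn_equivalence : Equivalence (MvN (A := A)) where
  refl p := Rel.refl p.idem p.selfAdj
  symm h := Rel.symm h
  trans {p _ r} h h' := Rel.trans p.idem r.idem h h'

/-- The setoid of Murray-von Neumann equivalence. -/
def mvnSetoid (A : Type) [NonUnitalCStarAlgebra A] : Setoid (Projn A) := ⟨MvN, mvn_equivalence⟩

/-- `V(A)`, the Murray-von Neumann classes of projections in matrices over `A`. -/
def V (A : Type) [NonUnitalCStarAlgebra A] : Type := Quotient (mvnSetoid A)

/-- the sum is the block sum up to equivalence -/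
theorem rel_sum (p q : Projn A) : Rel (p.sum q).mat (Matrix.fromBlocks p.mat 0 0 q.mat) :=
  (rel_reindex finSumFinEquiv (blocks_idem p.idem q.idem)
    (blocks_self p.selfAdj q.selfAdj)).symm

theorem sum_congr (p p' q q' : Projn A) (h : MvN p p') (h' : MvN q q') :
    MvN (p.sum q) (p'.sum q') :=
  Rel.trans (p.sum q).idem (p'.sum q').idem
    (Rel.trans (p.sum q).idem (blocks_idem p'.idem q'.idem) (rel_sum p q) (rel_blocks h h'))
    (rel_sum p' q').symm

theorem sum_comm (p q : Projn A) : MvN (p.sum q) (q.sum p) := by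
  refine Rel.trans (p.sum q).idem (q.sum p).idem (Rel.trans (p.sum q).idem
    (blocks_idem q.idem p.idem) (rel_sum p q) ?_) (rel_sum q p).symm
  have h := rel_reindex (Equiv.sumComm (Fin p.size) (Fin q.size)) (blocks_idem p.idem q.idem)
    (blocks_self p.selfAdj q.selfAdj)
  have e : Matrix.reindex (Equiv.sumComm (Fin p.size) (Fin q.size))
      (Equiv.sumComm (Fin p.size) (Fin q.size)) (Matrix.fromBlocks p.mat 0 0 q.mat) =
      Matrix.fromBlocks q.mat 0 0 p.mat := by
    ext i j
    rcases i with i | i <;> rcases j with j | j <;> rfl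
  rwa [e] at h

theorem sum_assoc (p q r : Projn A) : MvN ((p.sum q).sum r) (p.sum (q.sum r)) := by
  have i1 := blocks_idem (blocks_idem p.idem q.idem) r.idem
  have s1 := blocks_self (blocks_self p.selfAdj q.selfAdj) r.selfAdj
  have i2 := blocks_idem p.idem (blocks_idem q.idem r.idem)
  have h1 : Rel ((p.sum q).sum r).mat
      (Matrix.fromBlocks (Matrix.fromBlocks p.mat 0 0 q.mat) 0 0 r.mat) :=
    Rel.trans ((p.sum q).sum r).idem i1 (rel_sum _ _)
      (rel_blocks (rel_sum p q) (Rel.refl r.idem r.selfAdj))
  have h2 : Rel (p.sum (q.sum r)).mat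
      (Matrix.fromBlocks p.mat 0 0 (Matrix.fromBlocks q.mat 0 0 r.mat)) :=
    Rel.trans (p.sum (q.sum r)).idem i2 (rel_sum _ _)
      (rel_blocks (Rel.refl p.idem p.selfAdj) (rel_sum q r))
  have h := rel_reindex (Equiv.sumAssoc (Fin p.size) (Fin q.size) (Fin r.size)) i1 s1
  have e : Matrix.reindex (Equiv.sumAssoc (Fin p.size) (Fin q.size) (Fin r.size))
      (Equiv.sumAssoc (Fin p.size) (Fin q.size) (Fin r.size))
      (Matrix.fromBlocks (Matrix.fromBlocks p.mat 0 0 q.mat) 0 0 r.mat) =
      Matrix.fromBlocks p.mat 0 0 (Matrix.fromBlocks q.mat 0 0 r.mat) := by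
    ext i j
    rcases i with i | i | i <;> rcases j with j | j | j <;> rfl
  rw [e] at h
  exact Rel.trans ((p.sum q).sum r).idem (p.sum (q.sum r)).idem
    (Rel.trans ((p.sum q).sum r).idem i2 h1 h) h2.symm

theorem zero_sum (p : Projn A) : MvN ((Projn.zero A).sum p) p := by
  refine Rel.trans ((Projn.zero A).sum p).idem p.idem (rel_sum _ _) ?_
  have : IsEmpty (Fin (Projn.zero A).size) := inferInstanceAs (IsEmpty (Fin 0))
  have h := rel_reindex (Equiv.emptySum (Fin (Projn.zero A).size) (Fin p.size))
    (blocks_idem (Projn.zero A).idem p.idem) (blocks_self (Projn.zero A).selfAdj p.selfAdj)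
  have e : Matrix.reindex (Equiv.emptySum (Fin (Projn.zero A).size) (Fin p.size))
      (Equiv.emptySum (Fin (Projn.zero A).size) (Fin p.size))
      (Matrix.fromBlocks (Projn.zero A).mat 0 0 p.mat) = p.mat := by
    ext i j
    rfl
  rwa [e] at h

/-- the sum of classes -/
def V.add : V A → V A → V A :=
  Quotient.map₂ Projn.sum fun _ _ h _ _ h' => sum_congr _ _ _ _ h h'

theorem V.add_comm' (x y : V A) : V.add x y = V.add y x := by
  induction x using Quotient.inductionOn
  induction y using Quotient.inductionOn
  exact Quotient.sound (sum_comm _ _)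

theorem V.add_assoc' (x y z : V A) : V.add (V.add x y) z = V.add x (V.add y z) := by
  induction x using Quotient.inductionOn
  induction y using Quotient.inductionOn
  induction z using Quotient.inductionOn
  exact Quotient.sound (sum_assoc _ _ _)

/-- the class of a projection -/
def V.cls (p : Projn A) : V A := Quotient.mk (mvnSetoid A) p

theorem V.zero_add' (x : V A) : V.add (V.cls (Projn.zero A)) x = x := by
  induction x using Quotient.inductionOn
  exact Quotient.sound (zero_sum _)

theorem V.add_zero' (x : V A) : V.add x (V.cls (Projn.zero A)) = x := by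
  rw [V.add_comm', V.zero_add']

instance : Add (V A) := ⟨V.add⟩

instance : Zero (V A) := ⟨V.cls (Projn.zero A)⟩

/-- `V(A)` is a commutative monoid under `[p] + [q] = [p ⊕ q]`. -/
instance : AddCommMonoid (V A) where
  add_assoc := V.add_assoc'
  add_comm := V.add_comm'
  zero_add := V.zero_add'
  add_zero := V.add_zero'
  nsmul := nsmulRec

end monoid

section map

variable {A B C : Type} [NonUnitalCStarAlgebra A] [NonUnitalCStarAlgebra B]
  [NonUnitalCStarAlgebra C]

theorem map_mul' {ι κ μ : Type} [Fintype κ] (f : A →⋆ₙₐ[ℂ] B) (x : Matrix ι κ A)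
    (y : Matrix κ μ A) : (x * y).map (fun a => f a) = x.map (fun a => f a) * y.map fun a => f a := by
  ext i j
  simp [Matrix.mul_apply, map_sum, map_mul]

theorem map_star' {ι κ : Type} (f : A →⋆ₙₐ[ℂ] B) (x : Matrix ι κ A) :
    (x.map fun a => f a).conjTranspose = x.conjTranspose.map fun a => f a := by
  ext i j
  simp [Matrix.conjTranspose_apply, map_star]

theorem rel_map {ι κ : Type} [Fintype ι] [Fintype κ] (f : A →⋆ₙₐ[ℂ] B) {p : Matrix ι ι A}
    {q : Matrix κ κ A} (h : Rel p q) : Rel (p.map fun a => f a) (q.map fun a => f a) := by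
  obtain ⟨v, h1, h2⟩ := h
  refine ⟨v.map fun a => f a, ?_, ?_⟩
  · rw [map_star', ← map_mul', h1]
  · rw [map_star', ← map_mul', h2]

/-- The image of a matrix: `f` is applied entrywise. -/
def mapMat {n : ℕ} (f : A →⋆ₙₐ[ℂ] B) (x : Matrix (Fin n) (Fin n) A) : Matrix (Fin n) (Fin n) B :=
  x.map fun a => f a

theorem mapMat_idem (f : A →⋆ₙₐ[ℂ] B) (p : Projn A) :
    mapMat f p.mat * mapMat f p.mat = mapMat f p.mat := by
  unfold mapMat
  rw [← map_mul', p.idem]

theorem mapMat_self (f : A →⋆ₙₐ[ℂ] B) (p : Projn A) :
    (mapMat f p.mat).conjTranspose = mapMat f p.mat := by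
  unfold mapMat
  rw [map_star', p.selfAdj]

/-- The image of a projection: `f` is applied entrywise. -/
def Projn.map (f : A →⋆ₙₐ[ℂ] B) (p : Projn A) : Projn B where
  size := p.size
  mat := mapMat f p.mat
  idem := mapMat_idem f p
  selfAdj := mapMat_self f p

theorem map_congr (f : A →⋆ₙₐ[ℂ] B) (p q : Projn A) (h : MvN p q) : MvN (p.map f) (q.map f) :=
  rel_map f h

theorem map_sum' (f : A →⋆ₙₐ[ℂ] B) (p q : Projn A) :
    (p.sum q).map f = (p.map f).sum (q.map f) := by
  unfold Projn.map Projn.sum blockSum mapMat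
  congr 1
  ext i j
  simp only [Matrix.map_apply, Matrix.reindex_apply, Matrix.submatrix_apply]
  rcases h1 : finSumFinEquiv.symm i with i' | i' <;> rcases h2 : finSumFinEquiv.symm j with j' | j' <;>
    simp [Matrix.fromBlocks]

/-- The map of the classes: `[p] ↦ [f(p)]`. -/
def V.fun (f : A →⋆ₙₐ[ℂ] B) : V A → V B :=
  Quotient.map (Projn.map f) fun p q h => map_congr f p q h

theorem V.fun_zero (f : A →⋆ₙₐ[ℂ] B) : V.fun f 0 = 0 := by
  refine congrArg V.cls (?_ : (Projn.zero A).map f = Projn.zero B)
  unfold Projn.map Projn.zero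
  congr 1
  exact Subsingleton.elim _ _

theorem V.fun_add (f : A →⋆ₙₐ[ℂ] B) (x y : V A) : V.fun f (x + y) = V.fun f x + V.fun f y := by
  induction x using Quotient.inductionOn
  induction y using Quotient.inductionOn
  exact congrArg V.cls (map_sum' f _ _)

/-- `V(f) : [p] ↦ [f(p)]`. -/
def vmap (f : A →⋆ₙₐ[ℂ] B) : V A →+ V B where
  toFun := V.fun f
  map_zero' := V.fun_zero f
  map_add' := V.fun_add f

theorem vmap_id (x : V A) : vmap (NonUnitalStarAlgHom.id ℂ A) x = x := by
  induction x using Quotient.inductionOn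
  rfl

theorem vmap_comp (g : B →⋆ₙₐ[ℂ] C) (f : A →⋆ₙₐ[ℂ] B) (x : V A) :
    vmap (g.comp f) x = vmap g (vmap f x) := by
  induction x using Quotient.inductionOn
  rfl

end map

/-- The monoid `V(A)` as an object. -/
def VObj (A : CStar) : AddCommMonCat.{0} := AddCommMonCat.of (V A)

/-- The homomorphism `V(f)` as a morphism. -/
def VMap {A B : CStar} (f : A ⟶ B) : VObj A ⟶ VObj B := AddCommMonCat.ofHom (vmap f.hom)

theorem VMap_id (A : CStar) : VMap (𝟙 A) = 𝟙 (VObj A) := by
  ext x
  exact vmap_id x

theorem VMap_comp {A B C : CStar} (f : A ⟶ B) (g : B ⟶ C) : VMap (f ≫ g) = VMap f ≫ VMap g := by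
  ext x
  exact vmap_comp g.hom f.hom x

/-- The functor `V` from C*-algebras to commutative monoids (nonstable K-theory). -/
def VFunctor : CStar ⥤ AddCommMonCat.{0} where
  obj := VObj
  map := VMap
  map_id := VMap_id
  map_comp := VMap_comp

/-- A simplicial monoid is a commutative monoid that is isomorphic to `ℕ^n` for some `n`. -/
def IsSimplicial : ObjectProperty AddCommMonCat.{0} :=
  fun M => ∃ n : ℕ, Nonempty (M ≃+ (Fin n → ℕ))

/-! ### the lifting -/

open Pool.Agent.CStarLift

/-- the isomorphism of the vertices -/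
noncomputable def vfun (n : ℕ) : V (AA n) →+ (Fin n → ℕ) where
  toFun := Quotient.lift (fun p : Projn (AA n) => fun i => rf p.mat (cf i)) fun p q h => by
    obtain ⟨v, h1, h2⟩ := h
    funext i
    exact rf_eq_of_mvn p.idem p.selfAdj q.idem q.selfAdj v h1 h2 (cf i)
  map_zero' := by
    have h2 : (fun i => rf (Projn.zero (AA n)).mat (cf i)) =
        (fun i => rf (Projn.zero (AA n)).mat (cf i)) +
          fun i => rf (Projn.zero (AA n)).mat (cf i) := by
      funext i
      obtain ⟨v, h5, h6⟩ := zero_sum (Projn.zero (AA n))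
      exact (rf_eq_of_mvn ((Projn.zero (AA n)).sum (Projn.zero (AA n))).idem
        ((Projn.zero (AA n)).sum (Projn.zero (AA n))).selfAdj (Projn.zero (AA n)).idem
        (Projn.zero (AA n)).selfAdj v h5 h6 (cf i)).symm.trans
        (rf_block (Projn.zero (AA n)).idem (Projn.zero (AA n)).selfAdj
        (Projn.zero (AA n)).idem (Projn.zero (AA n)).selfAdj (cf i))
    exact left_eq_add.1 h2
  map_add' x y := by
    induction x using Quotient.inductionOn with | _ p => ?_
    induction y using Quotient.inductionOn with | _ q => ?_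
    funext i
    exact rf_block p.idem p.selfAdj q.idem q.selfAdj (cf i)

theorem vfun_bij (n : ℕ) : Function.Bijective (vfun n) := by
  constructor
  · intro x y
    induction x using Quotient.inductionOn with | _ p => ?_
    induction y using Quotient.inductionOn with | _ q => ?_
    intro h
    refine Quotient.sound ?_
    refine exists_mvn_of_rf_eq p.idem p.selfAdj q.idem q.selfAdj ?_
    intro f
    rw [rf_eq p.idem p.selfAdj f, rf_eq q.idem q.selfAdj f]
    exact congrArg f h
  · intro x
    obtain ⟨a, ha1, ha2, ha3⟩ := exists_of_vector x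
    refine ⟨V.cls ⟨1, Matrix.of (fun _ _ => a), ?_, ?_⟩, ?_⟩
    · ext1 i j
      simp [Matrix.mul_apply, ha1]
    · ext1 i j
      simp [Matrix.conjTranspose_apply, ha2]
    · funext i
      exact rf_single ha1 ha2 ha3 (cf i)

theorem vfun_nat (m n : ℕ) (f : (Fin m → ℕ) →+ (Fin n → ℕ)) (x : V (AA m)) :
    vfun n (vmap (FF m n f) x) = f (vfun m x) := by
  induction x using Quotient.inductionOn with | _ p => ?_
  funext i
  exact rf_push p.idem p.selfAdj f i

/-- There is a functor `Ψ` from the category of simplicial monoids and all monoid homomorphisms to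
the category of C*-algebras such that `V ∘ Ψ` is naturally isomorphic to the identity (the inclusion
of the simplicial monoids into the commutative monoids). -/
theorem result : ∃ Ψ : IsSimplicial.FullSubcategory ⥤ CStar,
    Nonempty (Ψ ⋙ VFunctor ≅ IsSimplicial.ι) := by
  classical
  choose n e using fun M : IsSimplicial.FullSubcategory => M.property
  let E : ∀ M : IsSimplicial.FullSubcategory, M.obj ≃+ (Fin (n M) → ℕ) := fun M => (e M).some
  let T : ∀ M N : IsSimplicial.FullSubcategory, (M ⟶ N) → ((Fin (n M) → ℕ) →+ (Fin (n N) → ℕ)) :=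
    fun M N f => ((E N).toAddMonoidHom.comp f.hom.hom).comp (E M).symm.toAddMonoidHom
  let Ψ : IsSimplicial.FullSubcategory ⥤ CStar :=
    { obj := fun M => ⟨AA (n M)⟩
      map := fun {M N} f => ⟨FF (n M) (n N) (T M N f)⟩
      map_id := by
        intro M
        have h : T M M (𝟙 M) = AddMonoidHom.id _ := by
          refine AddMonoidHom.ext fun x => ?_
          change E M ((𝟙 M : M ⟶ M).hom.hom ((E M).symm x)) = x
          rw [ObjectProperty.FullSubcategory.id_hom, AddCommMonCat.hom_id]
          exact (E M).apply_symm_apply x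
        rw [h]
        exact congrArg CStar.Hom.mk (FF_id (n M))
      map_comp := by
        intro L M N f g
        have h : T L N (f ≫ g) = (T M N g).comp (T L M f) := by
          refine AddMonoidHom.ext fun x => ?_
          change E N ((f ≫ g).hom.hom ((E L).symm x)) =
            E N (g.hom.hom ((E M).symm (E M (f.hom.hom ((E L).symm x)))))
          rw [ObjectProperty.FullSubcategory.comp_hom, AddCommMonCat.hom_comp,
            (E M).symm_apply_apply]
          rfl
        rw [h]
        exact congrArg CStar.Hom.mk (FF_comp (n L) (n M) (n N) (T L M f) (T M N g)) }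
  refine ⟨Ψ, ⟨NatIso.ofComponents (fun M => ((AddEquiv.ofBijective (vfun (n M))
    (vfun_bij (n M))).trans (E M).symm).toAddCommMonCatIso) ?_⟩⟩
  intro M N f
  ext x
  change (E N).symm (vfun (n N) (vmap (FF (n M) (n N) (T M N f)) x)) =
    f.hom.hom ((E M).symm (vfun (n M) x))
  exact (congrArg (E N).symm (vfun_nat (n M) (n N) (T M N f) x)).trans
    ((E N).symm_apply_apply _)

end Pool.Agent.Results.MP_ba91e3_al.FunctorialLifting
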